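import Pool.Agent.U709.FF.Stm

/-!
Project FF, package FR: commutator subgroups contain nonabelian free groups.
-/

set_option autoImplicit false

namespace Pool.Agent.U103.FF

open Pool.Agent.U709.FF
open scoped commutatorElement

theorem comm_of_subsingleton {ι : Type} (h : ∀ i j : ι, i = j) (x y : FreeGroup ι) :
    x * y = y * x := by
  have h1 : ∀ (i : ι) (y : FreeGroup ι), FreeGroup.of i * y = y * FreeGroup.of i := by
    intro i y
    induction y using FreeGroup.induction_on with
    | C1 => simp
    | of j => rw [h i j]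
    | inv_of j _ => rw [h i j]; simp
    | mul a b ha hb => rw [← mul_assoc, ha, mul_assoc, hb, mul_assoc]
  induction x using FreeGroup.induction_on with
  | C1 => simp
  | of j => exact h1 j y
  | inv_of j _ =>
    have := h1 j y
    rw [inv_mul_eq_iff_eq_mul, ← mul_assoc, this, mul_assoc, mul_inv_cancel, mul_one]
  | mul a b ha hb => rw [mul_assoc, hb, ← mul_assoc, ha, mul_assoc]

set_option maxRecDepth 100000 in
theorem comm_ne : ∃ u ∈ commutator (FreeGroup (Fin 2)), ∃ v ∈ commutator (FreeGroup (Fin 2)),
    u * v ≠ v * u := by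
  let a : FreeGroup (Fin 2) := FreeGroup.of 0
  let b : FreeGroup (Fin 2) := FreeGroup.of 1
  refine ⟨⁅a, b⁆, ?_, ⁅a ^ 2, b⁆, ?_, ?_⟩
  · exact Subgroup.commutator_mem_commutator (Subgroup.mem_top _) (Subgroup.mem_top _)
  · exact Subgroup.commutator_mem_commutator (Subgroup.mem_top _) (Subgroup.mem_top _)
  · intro h
    let s : Equiv.Perm (Fin 4) := c[0, 1, 2, 3]
    let t : Equiv.Perm (Fin 4) := c[0, 1]
    have h1 := congrArg (FreeGroup.lift ![s, t]) h
    simp only [a, b, map_mul, map_commutatorElement, map_pow, FreeGroup.lift_apply_of,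
      Matrix.cons_val_zero, Matrix.cons_val_one] at h1
    revert h1
    decide

theorem exists_two : ∃ i j : IsFreeGroup.Generators (commutator (FreeGroup (Fin 2))), i ≠ j := by
  by_contra hne
  push Not at hne
  obtain ⟨u, hu, v, hv, huv⟩ := comm_ne
  apply huv
  let e := IsFreeGroup.toFreeGroup (commutator (FreeGroup (Fin 2)))
  have h1 : (⟨u, hu⟩ : commutator (FreeGroup (Fin 2))) * ⟨v, hv⟩ = ⟨v, hv⟩ * ⟨u, hu⟩ := by
    apply e.injective
    rw [map_mul, map_mul]
    exact comm_of_subsingleton hne _ _
  exact congrArg Subtype.val h1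

theorem t_FR : FR := by
  rintro H _ ⟨f, hf⟩
  obtain ⟨i, j, hij⟩ := exists_two
  classical
  let D := commutator (FreeGroup (Fin 2))
  let ι := IsFreeGroup.Generators D
  let c : Fin 2 → ι := ![i, j]
  let d : ι → Fin 2 := fun x => if x = i then 0 else 1
  have hdc : d ∘ c = id := by
    funext x
    fin_cases x
    · simp [c, d]
    · simp [c, d, hij.symm]
  let e := IsFreeGroup.toFreeGroup D
  have h1 : Function.Injective (FreeGroup.map c) := by
    apply Function.LeftInverse.injective (g := FreeGroup.map d)
    intro x
    rw [FreeGroup.map.comp, hdc, FreeGroup.map.id]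
  let g : FreeGroup (Fin 2) →* H :=
    (f.comp D.subtype).comp (e.symm.toMonoidHom.comp (FreeGroup.map c))
  have hg : Function.Injective g := by
    have h2 : Function.Injective (f.comp D.subtype) := hf.comp D.subtype_injective
    have h3 : Function.Injective (e.symm.toMonoidHom.comp (FreeGroup.map c)) :=
      e.symm.injective.comp h1
    exact h2.comp h3
  have hmem : ∀ x, g x ∈ commutator H := by
    intro x
    have h4 : (commutator (FreeGroup (Fin 2))).map f ≤ commutator H := by
      rw [commutator_def, commutator_def, Subgroup.map_commutator]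
      exact Subgroup.commutator_mono le_top le_top
    apply h4
    exact ⟨_, (e.symm (FreeGroup.map c x)).2, rfl⟩
  refine ⟨g.codRestrict (commutator H) hmem, ?_⟩
  intro x y hxy
  apply hg
  exact congrArg Subtype.val hxy

end Pool.Agent.U103.FF
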